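import Pool.Agent.J4H78.HG.Stm
import Pool.Agent.J4H78.GP.Stm3
import Pool.Agent.Y772.DK.Cc

/-!
# Project HG (helper78): the part BAH
-/

set_option autoImplicit false

open NumberField Complex Filter Topology MeasureTheory

namespace Pool.Agent.J4H60.HG

open Pool.Agent.J4H78.HG
open Pool.Agent.J4H78.GP (QD gg IsCf S_LS2 S_BD S_EX)

theorem diagV (hBD : S_BD) (hV : S_VPR) (ε : ℝ) (hε : 0 < ε) : ∃ C : ℝ, 0 < C ∧
    ∀ G a : ℕ → ℂ, IsCf G a → (∀ d, ‖G d‖ ≤ 4) → ∀ X : ℝ, 0 < X →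
      (Summable fun n : ℕ => ((V ((n : ℝ) / X) : ℝ) : ℂ) * a n) ∧
      ‖∑' n : ℕ, ((V ((n : ℝ) / X) : ℝ) : ℂ) * a n‖ ≤ C * X ^ (1 + ε) := by
  obtain ⟨hV0, ⟨CV, hCV, hVb⟩, -, hVz, -⟩ := hV
  obtain ⟨CD, hCD, hD⟩ := hBD ε hε
  refine ⟨CV * CD * Real.exp 4 ^ (1 + ε), by positivity, fun G a ha hG X hX => ?_⟩
  set Y : ℝ := Real.exp 4 * X with hY
  have hY0 : 0 < Y := by positivity
  have hz : ∀ n : ℕ, n ∉ Finset.range (⌊Y⌋₊ + 1) → ((V ((n : ℝ) / X) : ℝ) : ℂ) * a n = 0 := by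
    intro n hn
    rw [Finset.mem_range, not_lt] at hn
    have h1 : Y < n := (Nat.floor_lt hY0.le).mp (by omega)
    have h2 : Real.exp 4 ≤ (n : ℝ) / X := by
      rw [le_div_iff₀ hX]
      exact h1.le
    rw [hVz _ h2, Complex.ofReal_zero, zero_mul]
  refine ⟨summable_of_ne_finset_zero hz, ?_⟩
  rw [tsum_eq_sum hz, Finset.sum_range_succ']
  have h0 : ((V (((0 : ℕ) : ℝ) / X) : ℝ) : ℂ) * a 0 = 0 := by rw [ha.1, mul_zero]
  rw [h0, add_zero]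
  refine (norm_sum_le _ _).trans ?_
  have hterm : ∀ n ∈ Finset.range ⌊Y⌋₊, ‖((V (((n + 1 : ℕ) : ℝ) / X) : ℝ) : ℂ) * a (n + 1)‖ ≤
      CV * CD * Y ^ ε := by
    intro n hn
    rw [Finset.mem_range] at hn
    have h1 : ((n + 1 : ℕ) : ℝ) ≤ Y := (Nat.le_floor_iff hY0.le).mp (by omega)
    rw [norm_mul, Complex.norm_real, Real.norm_of_nonneg (hV0 _)]
    have h2 : ‖a (n + 1)‖ ≤ CD * Y ^ ε := by
      refine (hD G a ha hG (n + 1) (by omega)).trans ?_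
      have h3 : ((n + 1 : ℕ) : ℝ) ^ ε ≤ Y ^ ε := Real.rpow_le_rpow (Nat.cast_nonneg _) h1 hε.le
      gcongr
    calc V (((n + 1 : ℕ) : ℝ) / X) * ‖a (n + 1)‖ ≤ CV * (CD * Y ^ ε) :=
          mul_le_mul (hVb _) h2 (norm_nonneg _) hCV.le
      _ = CV * CD * Y ^ ε := by ring
  refine (Finset.sum_le_sum hterm).trans ?_
  rw [Finset.sum_const, Finset.card_range, nsmul_eq_mul]
  have h1 : (⌊Y⌋₊ : ℝ) ≤ Y := Nat.floor_le hY0.le
  have h2 : 0 ≤ CV * CD * Y ^ ε := by positivity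
  calc (⌊Y⌋₊ : ℝ) * (CV * CD * Y ^ ε) ≤ Y * (CV * CD * Y ^ ε) := by gcongr
    _ = CV * CD * (Y ^ (1 : ℝ) * Y ^ ε) := by rw [Real.rpow_one]; ring
    _ = CV * CD * (Real.exp 4 ^ (1 + ε) * X ^ (1 + ε)) := by
        rw [← Real.rpow_add hY0, hY, Real.mul_rpow (Real.exp_pos 4).le hX.le]
    _ = CV * CD * Real.exp 4 ^ (1 + ε) * X ^ (1 + ε) := by ring

/-- number of the dyadic (base `e`) pieces -/
noncomputable def nJ (X : ℝ) : ℕ := ⌈Real.log X⌉₊ + 1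

/-- the weight -/
noncomputable def wt (X : ℝ) (n : ℕ) : ℝ :=
  ∑ j ∈ Finset.range (nJ X), V ((n : ℝ) / (X * Real.exp (-(j : ℝ))))

lemma nJ_le (X ε : ℝ) (hX : 1 ≤ X) (hε : 0 < ε) : (nJ X : ℝ) ≤ (1 / ε + 2) * X ^ ε := by
  unfold nJ
  have h0 : 0 ≤ Real.log X := Real.log_nonneg hX
  have h1 := Nat.ceil_lt_add_one h0
  have h2 : Real.log X ≤ X ^ ε / ε := Real.log_le_rpow_div (by linarith) hε
  have h3 : 1 ≤ X ^ ε := Real.one_le_rpow hX hε.le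
  push_cast
  have h4 : (1 / ε + 2) * X ^ ε = X ^ ε / ε + 2 * X ^ ε := by ring
  rw [h4]
  linarith

lemma wt_sum (X : ℝ) (a : ℕ → ℂ)
    (h : ∀ Y : ℝ, 0 < Y → Summable fun n : ℕ => ((V ((n : ℝ) / Y) : ℝ) : ℂ) * a n) (hX : 0 < X) :
    HasSum (fun n : ℕ => ((wt X n : ℝ) : ℂ) * a n)
      (∑ j ∈ Finset.range (nJ X), ∑' n : ℕ,
        ((V ((n : ℝ) / (X * Real.exp (-(j : ℝ)))) : ℝ) : ℂ) * a n) := by
  have h1 : (fun n : ℕ => ((wt X n : ℝ) : ℂ) * a n) = fun n : ℕ =>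
      ∑ j ∈ Finset.range (nJ X), ((V ((n : ℝ) / (X * Real.exp (-(j : ℝ)))) : ℝ) : ℂ) * a n := by
    funext n
    unfold wt
    rw [Complex.ofReal_sum, Finset.sum_mul]
  rw [h1]
  exact hasSum_sum fun j _ => (h _ (by positivity)).hasSum

lemma wt_norm (X : ℝ) (a : ℕ → ℂ)
    (h : ∀ Y : ℝ, 0 < Y → Summable fun n : ℕ => ((V ((n : ℝ) / Y) : ℝ) : ℂ) * a n) (hX : 0 < X)
    (c s : ℝ) (hc : 0 ≤ c) (hs : 0 ≤ s)
    (h2 : ∀ Y : ℝ, 0 < Y → ‖∑' n : ℕ, ((V ((n : ℝ) / Y) : ℝ) : ℂ) * a n‖ ≤ c * Y ^ s) :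
    ‖∑' n : ℕ, ((wt X n : ℝ) : ℂ) * a n‖ ≤ (nJ X : ℝ) * (c * X ^ s) := by
  rw [(wt_sum X a h hX).tsum_eq]
  refine (norm_sum_le _ _).trans ?_
  calc ∑ j ∈ Finset.range (nJ X), ‖∑' n : ℕ,
        ((V ((n : ℝ) / (X * Real.exp (-(j : ℝ)))) : ℝ) : ℂ) * a n‖
      ≤ ∑ j ∈ Finset.range (nJ X), c * X ^ s := by
        refine Finset.sum_le_sum fun j _ => (h2 _ (by positivity)).trans ?_
        have h3 : X * Real.exp (-(j : ℝ)) ≤ X := by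
          have : Real.exp (-(j : ℝ)) ≤ 1 := Real.exp_le_one_iff.mpr (by simp)
          nlinarith
        have h4 : (X * Real.exp (-(j : ℝ))) ^ s ≤ X ^ s :=
          Real.rpow_le_rpow (by positivity) h3 hs
        gcongr
    _ = (nJ X : ℝ) * (c * X ^ s) := by rw [Finset.sum_const, Finset.card_range, nsmul_eq_mul]

lemma wt_lower (hV0 : ∀ u : ℝ, 0 ≤ V u) (v₀ : ℝ)
    (hv : ∀ u : ℝ, Real.exp (-1) ≤ u → u ≤ 1 → v₀ ≤ V u) (X : ℝ) (n : ℕ) (hn : 1 ≤ n)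
    (hnX : (n : ℝ) ≤ X) : v₀ ≤ wt X n := by
  have hn0 : (0 : ℝ) < n := by exact_mod_cast hn
  have hn1 : (1 : ℝ) ≤ n := by exact_mod_cast hn
  have hX : 0 < X := by linarith
  set t : ℝ := Real.log (X / n) with ht
  have hq : 1 ≤ X / n := by rwa [le_div_iff₀ hn0, one_mul]
  have ht0 : 0 ≤ t := Real.log_nonneg hq
  set j : ℕ := ⌊t⌋₊ with hj
  have hj1 : (j : ℝ) ≤ t := Nat.floor_le ht0
  have hj2 : t < j + 1 := Nat.lt_floor_add_one t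
  have htX : t ≤ Real.log X := by
    refine Real.log_le_log (by positivity) ?_
    rw [div_le_iff₀ hn0]
    nlinarith
  have hjr : j ∈ Finset.range (nJ X) := by
    rw [Finset.mem_range]
    unfold nJ
    have : (j : ℝ) ≤ (⌈Real.log X⌉₊ : ℝ) := (hj1.trans htX).trans (Nat.le_ceil _)
    have : j ≤ ⌈Real.log X⌉₊ := by exact_mod_cast this
    omega
  have hval : (n : ℝ) / (X * Real.exp (-(j : ℝ))) = Real.exp ((j : ℝ) - t) := by
    have h1 : Real.exp t = X / n := Real.exp_log (by positivity)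
    rw [Real.exp_sub, h1, Real.exp_neg]
    have h2 := Real.exp_pos (j : ℝ)
    field_simp
  refine le_trans ?_ (Finset.single_le_sum (f := fun j : ℕ => V ((n : ℝ) / (X * Real.exp (-(j : ℝ)))))
    (fun i _ => hV0 _) hjr)
  change v₀ ≤ V ((n : ℝ) / (X * Real.exp (-(j : ℝ))))
  rw [hval]
  refine hv _ (Real.exp_le_exp.mpr (by linarith)) (Real.exp_le_one_iff.mpr (by linarith))

theorem t_BAH (hPAIR : S_PAH) (hLS : S_LS2) (hBD : S_BD) (hV : S_VPR) (hEX : S_EX) (hNRM : S_NRM) :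
    S_BAH := by
  intro B₀ ε hB₀ hε
  obtain ⟨CP, hCP, hpair⟩ := hPAIR
  obtain ⟨C1, hC1, hdiag⟩ := diagV hBD hV (ε / 2) (by positivity)
  have hV' := hV
  obtain ⟨hV0, -, -, -, w₀, hw₀, hw⟩ := hV'
  set K1 : ℝ := (1 / (ε / 2) + 2) * C1 with hK1
  set K2 : ℝ := 44 * CP with hK2
  have hK1p : 0 < K1 := by positivity
  have hK2p : 0 < K2 := by positivity
  refine ⟨(K1 + K2) / w₀, by positivity, fun x k X B T Q E hX hT hQ hBX hE => ?_⟩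
  have hX0 : 0 < X := by linarith
  -- the characters
  have hex : ∀ i : {p // p ∈ E}, ∃ g : ℕ → ℂ, (∀ d, ‖g d‖ ≤ 2) ∧
      T ≤ ‖∑ q ∈ Q, g q‖ ∧
      ∃ (K : Type) (_ : Field K) (_ : NumberField K), QD i.1 K ∧ ∃ (μ : InfinitePlace K → ℝ)
        (ψ : Ideal (𝓞 K) →*₀ ℂ),
        IsHk K μ ψ ∧ (∀ w, |μ w| ≤ (x : ℝ) ^ B₀) ∧ NotNorm2 ψ ∧ g = gg i.1 ψ := by
    rintro ⟨p, hp⟩
    obtain ⟨hpp, hpx, ⟨K, fK, nK, hQD, μ, ψ, hhk, hμ, hnt, h1⟩⟩ := hE p hp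
    refine ⟨gg p ψ, fun d => ?_, h1, K, fK, nK, hQD, μ, ψ, hhk, fun w => (hμ w).trans ?_, hnt, rfl⟩
    · unfold gg
      split_ifs
      · have hnm : ∀ 𝔞 : Ideal (𝓞 K), ‖ψ 𝔞‖ ≤ 1 := by
          intro 𝔞
          by_cases h0 : 𝔞 = ⊥
          · rw [h0, ← Ideal.zero_eq_bot, map_zero, norm_zero]
            exact zero_le_one
          · exact (hNRM K μ ψ hhk 𝔞 h0).le
        have := Pool.Agent.Y772.DK.norm_cc_le ψ hnm d
        rw [hQD.deg] at this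
        exact_mod_cast this
      · rw [norm_zero]
        norm_num
    · exact Real.rpow_le_rpow (Nat.cast_nonneg _) (by exact_mod_cast hpx) hB₀.le
  choose g hg2 hgT hgK using hex
  -- the coefficients
  have hexa : ∀ i j : {p // p ∈ E}, ∃ a : ℕ → ℂ,
      IsCf (fun d => g i d * (starRingEnd ℂ) (g j d)) a := fun i j => (hEX _).exists
  choose a ha using hexa
  have hG4 : ∀ i j : {p // p ∈ E}, ∀ d, ‖g i d * (starRingEnd ℂ) (g j d)‖ ≤ 4 := by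
    intro i j d
    rw [norm_mul, RCLike.norm_conj]
    calc ‖g i d‖ * ‖g j d‖ ≤ 2 * 2 :=
          mul_le_mul (hg2 i d) (hg2 j d) (norm_nonneg _) (by norm_num)
      _ = 4 := by norm_num
  have hsm : ∀ i j, ∀ Y : ℝ, 0 < Y → Summable fun n : ℕ => ((V ((n : ℝ) / Y) : ℝ) : ℂ) * a i j n :=
    fun i j Y hY => (hdiag _ _ (ha i j) (hG4 i j) Y hY).1
  have hdg : ∀ i j, ‖∑' n : ℕ, ((wt X n : ℝ) : ℂ) * a i j n‖ ≤ K1 * X ^ (1 + ε) := by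
    intro i j
    refine (wt_norm X (a i j) (hsm i j) hX0 C1 (1 + ε / 2) hC1.le (by positivity)
      (fun Y hY => (hdiag _ _ (ha i j) (hG4 i j) Y hY).2)).trans ?_
    have h1 := nJ_le X (ε / 2) hX (by positivity)
    have h2 : 0 ≤ C1 * X ^ (1 + ε / 2) := by positivity
    calc (nJ X : ℝ) * (C1 * X ^ (1 + ε / 2))
        ≤ ((1 / (ε / 2) + 2) * X ^ (ε / 2)) * (C1 * X ^ (1 + ε / 2)) := by gcongr
      _ = K1 * (X ^ (ε / 2) * X ^ (1 + ε / 2)) := by rw [hK1]; ring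
      _ = K1 * X ^ (1 + ε) := by
          rw [← Real.rpow_add hX0]
          congr 2
          ring
  have hoff : ∀ i j, i ≠ j → ‖∑' n : ℕ, ((wt X n : ℝ) : ℂ) * a i j n‖ ≤
      K2 * (x : ℝ) ^ (160 + B₀) * X ^ (4 / 5 : ℝ) := by
    intro i j hij
    obtain ⟨K, fK, nK, hQD, μ, ψ, hhk, hμ, hnt, hgi⟩ := hgK i
    obtain ⟨K', fK', nK', hQD', μ', ψ', hhk', hμ', hnt', hgj⟩ := hgK j
    obtain ⟨hpi, hpix, -⟩ := hE i.1 i.2
    obtain ⟨hpj, hpjx, -⟩ := hE j.1 j.2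
    have hne : i.1 ≠ j.1 := fun h => hij (Subtype.ext h)
    have haij := ha i j
    rw [hgi, hgj] at haij
    have h6 : (i.1 : ℝ) ≤ x := by exact_mod_cast hpix
    have h7 : (j.1 : ℝ) ≤ x := by exact_mod_cast hpjx
    have h61 : (1 : ℝ) ≤ i.1 := by exact_mod_cast hpi.one_lt.le
    have hx1 : (1 : ℝ) ≤ x := h61.trans h6
    have hx0 : (0 : ℝ) < x := by linarith
    have hb1 : (1 : ℝ) ≤ (x : ℝ) ^ B₀ := Real.one_le_rpow hx1 hB₀.le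
    have hbd : CP * (1 + (x : ℝ) ^ B₀) * ((i.1 : ℝ) * (j.1 : ℝ)) ^ 80 ≤
        2 * CP * (x : ℝ) ^ (160 + B₀) := by
      have h5 : (i.1 : ℝ) * (j.1 : ℝ) ≤ (x : ℝ) * x := by gcongr
      have h8 : ((i.1 : ℝ) * (j.1 : ℝ)) ^ 80 ≤ (x : ℝ) ^ (160 : ℝ) := by
        calc ((i.1 : ℝ) * (j.1 : ℝ)) ^ 80 ≤ ((x : ℝ) * x) ^ 80 :=
              pow_le_pow_left₀ (by positivity) h5 80
          _ = (x : ℝ) ^ (160 : ℝ) := by
              rw [show (160 : ℝ) = ((160 : ℕ) : ℝ) by norm_num, Real.rpow_natCast]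
              ring
      have h9 : 1 + (x : ℝ) ^ B₀ ≤ 2 * (x : ℝ) ^ B₀ := by linarith
      calc CP * (1 + (x : ℝ) ^ B₀) * ((i.1 : ℝ) * (j.1 : ℝ)) ^ 80
          ≤ CP * (2 * (x : ℝ) ^ B₀) * (x : ℝ) ^ (160 : ℝ) := by gcongr
        _ = 2 * CP * ((x : ℝ) ^ (160 : ℝ) * (x : ℝ) ^ B₀) := by ring
        _ = 2 * CP * (x : ℝ) ^ (160 + B₀) := by rw [← Real.rpow_add hx0]
    have h3 : ∀ Y : ℝ, 0 < Y → ‖∑' n : ℕ, ((V ((n : ℝ) / Y) : ℝ) : ℂ) * a i j n‖ ≤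
        (2 * CP * (x : ℝ) ^ (160 + B₀)) * Y ^ (3 / 4 : ℝ) := by
      intro Y hY
      refine (hpair i.1 j.1 K K' hpi hpj hne hQD hQD' μ μ' ψ ψ' hhk hhk' hnt' ((x : ℝ) ^ B₀) hμ hμ'
        (a i j) haij Y hY).trans ?_
      have : 0 ≤ Y ^ (3 / 4 : ℝ) := by positivity
      gcongr
    refine (wt_norm X (a i j) (hsm i j) hX0 _ (3 / 4) (by positivity) (by norm_num) h3).trans ?_
    have h1 := nJ_le X (1 / 20) hX (by norm_num)
    have h2 : 0 ≤ 2 * CP * (x : ℝ) ^ (160 + B₀) * X ^ (3 / 4 : ℝ) := by positivity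
    calc (nJ X : ℝ) * (2 * CP * (x : ℝ) ^ (160 + B₀) * X ^ (3 / 4 : ℝ))
        ≤ ((1 / (1 / 20) + 2) * X ^ (1 / 20 : ℝ)) *
          (2 * CP * (x : ℝ) ^ (160 + B₀) * X ^ (3 / 4 : ℝ)) := by gcongr
      _ = K2 * (x : ℝ) ^ (160 + B₀) * (X ^ (1 / 20 : ℝ) * X ^ (3 / 4 : ℝ)) := by rw [hK2]; ring
      _ = K2 * (x : ℝ) ^ (160 + B₀) * X ^ (4 / 5 : ℝ) := by
          rw [← Real.rpow_add hX0]
          norm_num
  set D : ℝ := K1 * X ^ (1 + ε) + E.card * (K2 * (x : ℝ) ^ (160 + B₀) * X ^ (4 / 5 : ℝ)) with hD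
  have hrow : ∀ i : {p // p ∈ E}, ∑ j, ‖∑' n : ℕ, ((wt X n : ℝ) : ℂ) * a i j n‖ ≤ D := by
    intro i
    classical
    rw [← Finset.add_sum_erase Finset.univ _ (Finset.mem_univ i)]
    refine add_le_add (hdg i i) ?_
    calc ∑ j ∈ Finset.univ.erase i, ‖∑' n : ℕ, ((wt X n : ℝ) : ℂ) * a i j n‖
        ≤ ∑ j ∈ Finset.univ.erase i, (K2 * (x : ℝ) ^ (160 + B₀) * X ^ (4 / 5 : ℝ)) :=
          Finset.sum_le_sum fun j hj => hoff i j (Finset.ne_of_mem_erase hj).symm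
      _ ≤ ∑ j : {p // p ∈ E}, (K2 * (x : ℝ) ^ (160 + B₀) * X ^ (4 / 5 : ℝ)) :=
          Finset.sum_le_sum_of_subset_of_nonneg (Finset.erase_subset _ _)
            fun _ _ _ => by positivity
      _ = _ := by
          rw [Finset.sum_const, Finset.card_univ, Fintype.card_coe, nsmul_eq_mul]
  have hcol : ∀ j : {p // p ∈ E}, ∑ i, ‖∑' n : ℕ, ((wt X n : ℝ) : ℂ) * a i j n‖ ≤ D := by
    intro j
    classical
    rw [← Finset.add_sum_erase Finset.univ _ (Finset.mem_univ j)]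
    refine add_le_add (hdg j j) ?_
    calc ∑ i ∈ Finset.univ.erase j, ‖∑' n : ℕ, ((wt X n : ℝ) : ℂ) * a i j n‖
        ≤ ∑ i ∈ Finset.univ.erase j, (K2 * (x : ℝ) ^ (160 + B₀) * X ^ (4 / 5 : ℝ)) :=
          Finset.sum_le_sum fun i hi => hoff i j (Finset.ne_of_mem_erase hi)
      _ ≤ ∑ i : {p // p ∈ E}, (K2 * (x : ℝ) ^ (160 + B₀) * X ^ (4 / 5 : ℝ)) :=
          Finset.sum_le_sum_of_subset_of_nonneg (Finset.erase_subset _ _)
            fun _ _ _ => by positivity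
      _ = _ := by
          rw [Finset.sum_const, Finset.card_univ, Fintype.card_coe, nsmul_eq_mul]
  have hD0 : 0 ≤ D := by positivity
  have hSP : ∀ f : Fin k → ℕ, (∀ j, f j ∈ Q) → w₀ ≤ wt X (∏ j, f j) := by
    intro f hf
    have h3 : 0 < ∏ j, f j := Finset.prod_pos fun j _ => (hQ _ (hf j)).1.pos
    refine wt_lower hV0 w₀ hw X _ h3 ?_
    push_cast
    calc ∏ j, ((f j : ℕ) : ℝ) ≤ ∏ _j : Fin k, B :=
          Finset.prod_le_prod (fun j _ => Nat.cast_nonneg _) fun j _ => (hQ _ (hf j)).2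
      _ = B ^ k := by rw [Finset.prod_const, Finset.card_univ, Fintype.card_fin]
      _ ≤ X := hBX
  have hls := hLS {p // p ∈ E} g a ha (fun n => wt X n)
    (fun n => Finset.sum_nonneg fun j _ => hV0 _)
    (fun i j => (wt_sum X (a i j) (hsm i j) hX0).summable) D hD0 hrow hcol Q k w₀ hw₀
    (fun q hq => (hQ q hq).1) hSP
  have hfin : w₀ * ((E.card : ℝ) * T ^ (2 * k)) ≤ D * (k.factorial * (Q.card : ℝ) ^ k) := by
    calc w₀ * ((E.card : ℝ) * T ^ (2 * k))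
        = w₀ * ∑ i : {p // p ∈ E}, T ^ (2 * k) := by
          rw [Finset.sum_const, Finset.card_univ, Fintype.card_coe, nsmul_eq_mul]
      _ ≤ w₀ * ∑ i : {p // p ∈ E}, ‖∑ q ∈ Q, g i q‖ ^ (2 * k) := by
          gcongr with i _
          exact hgT i
      _ ≤ _ := hls
  have h9 : D ≤ (K1 + K2) * (X ^ (1 + ε) + E.card * (x : ℝ) ^ (160 + B₀) * X ^ (4 / 5 : ℝ)) := by
    have h10 : 0 ≤ K2 * X ^ (1 + ε) := by positivity
    have h11 : 0 ≤ K1 * (E.card * (x : ℝ) ^ (160 + B₀) * X ^ (4 / 5 : ℝ)) := by positivity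
    have h12 : (K1 + K2) * (X ^ (1 + ε) + E.card * (x : ℝ) ^ (160 + B₀) * X ^ (4 / 5 : ℝ)) =
      D + K2 * X ^ (1 + ε) + K1 * (E.card * (x : ℝ) ^ (160 + B₀) * X ^ (4 / 5 : ℝ)) := by
      rw [hD]
      ring
    linarith
  have h13 : w₀ * ((E.card : ℝ) * T ^ (2 * k)) ≤
      w₀ * ((K1 + K2) / w₀ * (X ^ (1 + ε) + E.card * (x : ℝ) ^ (160 + B₀) * X ^ (4 / 5 : ℝ)) *
        (k.factorial * (Q.card : ℝ) ^ k)) := by
    refine hfin.trans ?_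
    calc D * (k.factorial * (Q.card : ℝ) ^ k)
        ≤ ((K1 + K2) * (X ^ (1 + ε) + E.card * (x : ℝ) ^ (160 + B₀) * X ^ (4 / 5 : ℝ))) *
          (k.factorial * (Q.card : ℝ) ^ k) := by
          gcongr
      _ = _ := by
          field_simp
  exact le_of_mul_le_mul_left h13 hw₀

end Pool.Agent.J4H60.HG
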