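import Pool.Agent.J4H78.HG.Stm2

/-! Project HG2 (helper78), piece DEN: the second moment method on the Arakelov class group. -/

set_option autoImplicit false

open NumberField Complex
open scoped ComplexConjugate

namespace Pool.Agent.J4H60.HG

open Pool.Agent.J4H78.GP (QD S_HB)
open Pool.Agent.J4H78.HG

/-- `e ^ (i θ)` -/
noncomputable def ex (θ : ℝ) : ℂ := Complex.exp ((θ : ℂ) * I)

theorem ex_add (a b : ℝ) : ex (a + b) = ex a * ex b := by
  unfold ex
  rw [← Complex.exp_add]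
  congr 1
  push_cast
  ring

theorem ex_norm (a : ℝ) : ‖ex a‖ = 1 := Complex.norm_exp_ofReal_mul_I a

theorem ex_zero : ex 0 = 1 := by simp [ex]

section
variable {K : Type} [Field K] [NumberField K]

open Classical in
/-- the class of an ideal (`1` for the zero ideal) -/
noncomputable def cl (𝔞 : Ideal (𝓞 K)) : ClassGroup (𝓞 K) :=
  if h : 𝔞 ≠ ⊥ then ClassGroup.mk0 ⟨𝔞, mem_nonZeroDivisors_of_ne_zero h⟩ else 1

theorem cl_mul {𝔞 𝔟 : Ideal (𝓞 K)} (ha : 𝔞 ≠ ⊥) (hb : 𝔟 ≠ ⊥) : cl (𝔞 * 𝔟) = cl 𝔞 * cl 𝔟 := by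
  have hab : 𝔞 * 𝔟 ≠ ⊥ := mul_ne_zero ha hb
  rw [cl, cl, cl, dif_pos hab, dif_pos ha, dif_pos hb, ← map_mul]
  rfl

theorem cl_span {x : 𝓞 K} (hx : x ≠ 0) : cl (Ideal.span {x}) = 1 := by
  have h : Ideal.span {x} ≠ ⊥ := by rwa [Ne, Ideal.span_singleton_eq_bot]
  rw [cl, dif_pos h, ClassGroup.mk0_eq_one_iff]
  exact ⟨⟨x, rfl⟩⟩

theorem cl_one : cl (1 : Ideal (𝓞 K)) = 1 := by
  have := cl_span (K := K) (x := 1) one_ne_zero
  rwa [Ideal.span_singleton_one, ← Ideal.one_eq_top] at this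

theorem exists_cl (g : ClassGroup (𝓞 K)) : ∃ 𝔞 : Ideal (𝓞 K), 𝔞 ≠ ⊥ ∧ cl 𝔞 = g := by
  obtain ⟨⟨𝔞, h⟩, rfl⟩ := ClassGroup.mk0_surjective g
  have h0 : 𝔞 ≠ ⊥ := nonZeroDivisors.ne_zero h
  exact ⟨𝔞, h0, by rw [cl, dif_pos h0]⟩

theorem cl_eq {𝔞 𝔟 : Ideal (𝓞 K)} (ha : 𝔞 ≠ ⊥) (hb : 𝔟 ≠ ⊥) (h : cl 𝔞 = cl 𝔟) :
    ∃ x y : 𝓞 K, x ≠ 0 ∧ y ≠ 0 ∧ Ideal.span {x} * 𝔞 = Ideal.span {y} * 𝔟 := by
  rw [cl, cl, dif_pos ha, dif_pos hb, ClassGroup.mk0_eq_mk0_iff] at h
  obtain ⟨x, y, hx, hy, h⟩ := h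
  exact ⟨x, y, hx, hy, h⟩

/-- the product with a character of the class group -/
noncomputable def tw (ψ : Ideal (𝓞 K) →*₀ ℂ) (χ : AddChar (Additive (ClassGroup (𝓞 K))) ℂ) :
    Ideal (𝓞 K) →*₀ ℂ where
  toFun 𝔞 := ψ 𝔞 * χ (Additive.ofMul (cl 𝔞))
  map_zero' := by rw [map_zero, zero_mul]
  map_one' := by rw [map_one, one_mul, cl_one, ofMul_one, AddChar.map_zero_eq_one]
  map_mul' 𝔞 𝔟 := by
    by_cases ha : 𝔞 = ⊥
    · have h0 : 𝔞 = 0 := ha
      simp only [h0, zero_mul, map_zero]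
    · by_cases hb : 𝔟 = ⊥
      · have h0 : 𝔟 = 0 := hb
        simp only [h0, zero_mul, mul_zero, map_zero]
      · rw [map_mul, cl_mul ha hb, ofMul_mul, AddChar.map_add_eq_mul]
        ring

theorem tw_apply (ψ : Ideal (𝓞 K) →*₀ ℂ) (χ : AddChar (Additive (ClassGroup (𝓞 K))) ℂ)
    (𝔞 : Ideal (𝓞 K)) : tw ψ χ 𝔞 = ψ 𝔞 * χ (Additive.ofMul (cl 𝔞)) := rfl

theorem isHk_tw {μ : InfinitePlace K → ℝ} {ψ : Ideal (𝓞 K) →*₀ ℂ} (h : IsHk K μ ψ)
    (χ : AddChar (Additive (ClassGroup (𝓞 K))) ℂ) : IsHk K μ (tw ψ χ) := by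
  intro x hx
  rw [tw_apply, h x hx, cl_span hx, ofMul_one, AddChar.map_zero_eq_one, mul_one]

open Classical in
/-- the trivial character -/
noncomputable def triv (K : Type) [Field K] [NumberField K] : Ideal (𝓞 K) →*₀ ℂ where
  toFun 𝔞 := if 𝔞 = ⊥ then 0 else 1
  map_zero' := if_pos rfl
  map_one' := if_neg (by
    intro h
    have : (1 : Ideal (𝓞 K)) = 0 := h
    exact one_ne_zero this)
  map_mul' 𝔞 𝔟 := by
    by_cases ha : 𝔞 = ⊥
    · have h0 : 𝔞 * 𝔟 = ⊥ := by rw [ha]; exact zero_mul _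
      rw [if_pos h0, if_pos ha, zero_mul]
    · by_cases hb : 𝔟 = ⊥
      · have h0 : 𝔞 * 𝔟 = ⊥ := by rw [hb]; exact mul_zero _
        rw [if_pos h0, if_pos hb, mul_zero]
      · have h0 : 𝔞 * 𝔟 ≠ ⊥ := mul_ne_zero ha hb
        rw [if_neg h0, if_neg ha, if_neg hb, one_mul]

theorem triv_apply {𝔞 : Ideal (𝓞 K)} (h : 𝔞 ≠ ⊥) : triv K 𝔞 = 1 := if_neg h

omit [NumberField K] in
theorem span_ne {x : 𝓞 K} (hx : x ≠ 0) : Ideal.span {x} ≠ ⊥ := by
  rwa [Ne, Ideal.span_singleton_eq_bot]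

open Classical in
/-- the type `(a, -a)` -/
noncomputable def mu (w : InfinitePlace K) (a : ℝ) : InfinitePlace K → ℝ :=
  fun v => if v = w then a else -a

theorem pw_mu {w w' : InfinitePlace K} (hw : w ≠ w') (hv : ∀ v, v = w ∨ v = w') (a : ℝ) (x : K) :
    pw (mu w a) x = ex (a * la w w' x) := by
  classical
  have hu : (Finset.univ : Finset (InfinitePlace K)) = {w, w'} := by
    ext v
    simpa using hv v
  unfold pw
  rw [hu, Finset.prod_pair hw, ← Complex.exp_add]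
  have h1 : mu w a w = a := if_pos rfl
  have h2 : mu w a w' = -a := if_neg (Ne.symm hw)
  rw [h1, h2, ex, la]
  congr 1
  push_cast
  ring

theorem isHk_triv {w : InfinitePlace K} : IsHk K (mu w 0) (triv K) := by
  intro x hx
  rw [triv_apply (span_ne hx)]
  unfold pw
  refine (Finset.prod_eq_one fun v _ => ?_).symm
  have : mu w 0 v = 0 := by
    unfold mu
    split <;> simp
  rw [this]
  simp

theorem la_mul (w w' : InfinitePlace K) {x y : K} (hx : x ≠ 0) (hy : y ≠ 0) :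
    la w w' (x * y) = la w w' x + la w w' y := by
  unfold la
  rw [map_mul, map_mul, Real.log_mul ((map_ne_zero w).2 hx) ((map_ne_zero w).2 hy),
    Real.log_mul ((map_ne_zero w').2 hx) ((map_ne_zero w').2 hy)]
  ring

theorem la_div (w w' : InfinitePlace K) {x y : K} (hx : x ≠ 0) (hy : y ≠ 0) :
    la w w' (x / y) = la w w' x - la w w' y := by
  have h := la_mul w w' (div_ne_zero hx hy) hy
  rw [div_mul_cancel₀ _ hy] at h
  linarith

theorem la_zpow (w w' : InfinitePlace K) (u : (𝓞 K)ˣ) (j : ℤ) :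
    la w w' (((u ^ j : (𝓞 K)ˣ) : 𝓞 K) : K) = j * la w w' ((u : 𝓞 K) : K) := by
  have h1 : ((((u ^ j : (𝓞 K)ˣ) : 𝓞 K) : K)) = (((u : 𝓞 K) : K)) ^ j :=
    NumberField.Units.coe_zpow u j
  unfold la
  rw [h1, map_zpow₀, map_zpow₀, Real.log_zpow, Real.log_zpow]
  ring

end

theorem t_DEN : S_UNI → S_EXT → S_FEJ → S_NNW → S_NRM → S_HB → S_DEN := by
  intro hUNI hEXT hFEJ hNNW hNRM hHB
  obtain ⟨C₁, hC₁, hU⟩ := hUNI
  obtain ⟨C₂, hC₂, hH⟩ := hHB
  refine ⟨63 + 4 * C₂ + C₂ * C₁ ^ 2, by positivity, ?_⟩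
  intro p K _ _ hp hQ w w' hww S hS0 hSne n m T d hT0 hd hsum hc1 hc2 𝔟 hb t
  classical
  obtain ⟨hv, R, hR1, hR2, ⟨u₀, hu₀⟩, hunit⟩ := hU p K hp hQ w w' hww
  have hR0 : 0 < R := by linarith
  by_contra hno
  -- the characters
  have hps : ∀ k : ℤ, ∃ ψ : Ideal (𝓞 K) →*₀ ℂ, IsHk K (mu w (2 * Real.pi * k / R)) ψ ∧
      (k = 0 → ψ = triv K) := by
    intro k
    by_cases hk : k = 0
    · refine ⟨triv K, ?_, fun _ => rfl⟩
      have : (2 * Real.pi * (k : ℝ) / R) = 0 := by rw [hk]; simp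
      rw [this]
      exact isHk_triv
    · obtain ⟨ψ, hψ⟩ := hEXT K (mu w (2 * Real.pi * k / R)) (by
        intro u
        obtain ⟨j, hj⟩ := hunit u
        rw [pw_mu hww hv, hj]
        have h1 : 2 * Real.pi * (k : ℝ) / R * ((j : ℝ) * R) = ((k * j : ℤ) : ℝ) * (2 * Real.pi) := by
          push_cast
          field_simp
        rw [h1, ex, Complex.exp_eq_one_iff]
        exact ⟨k * j, by push_cast; ring⟩)
      exact ⟨ψ, hψ, fun h => absurd h hk⟩
  choose ps hps1 hps2 using hps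
  have hnorm : ∀ (k : ℤ) (χ : AddChar (Additive (ClassGroup (𝓞 K))) ℂ) {𝔞 : Ideal (𝓞 K)}, 𝔞 ≠ ⊥ →
      ‖tw (ps k) χ 𝔞‖ = 1 := fun k χ 𝔞 h => hNRM K _ _ (isHk_tw (hps1 k) χ) 𝔞 h
  have hn1 : (0 : ℝ) < (n : ℝ) + 1 := by positivity
  -- the coefficients
  set co : ℤ → ℂ := fun k => ((1 - |(k : ℝ)| / (n + 1) : ℝ) : ℂ) * ex (-(2 * Real.pi * k / R * t))
    with hco
  clear_value co
  have hco1 : ∀ k ∈ Finset.Icc (-(n : ℤ)) n, ‖co k‖ ≤ 1 := by
    intro k hk
    rw [Finset.mem_Icc] at hk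
    have h1 : |(k : ℝ)| ≤ n := by
      rw [abs_le]
      constructor
      · exact_mod_cast hk.1
      · exact_mod_cast hk.2
    rw [hco]
    simp only [norm_mul, ex_norm, mul_one]
    rw [Complex.norm_real, Real.norm_eq_abs, abs_le]
    have h2 : |(k : ℝ)| / (n + 1) ≤ 1 := by
      rw [div_le_one hn1]
      linarith
    have h3 : 0 ≤ |(k : ℝ)| / (n + 1) := by positivity
    constructor <;> linarith
  -- nontrivial characters
  have hnt : ∀ k ∈ Finset.Icc (-(n : ℤ)) n, ∀ χ : AddChar (Additive (ClassGroup (𝓞 K))) ℂ,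
      (k, χ) ≠ (0, 1) → ‖∑ 𝔮 ∈ S, tw (ps k) χ 𝔮‖ ≤ T := by
    intro k hk χ hkχ
    apply hsum (mu w (2 * Real.pi * k / R)) (tw (ps k) χ) (isHk_tw (hps1 k) χ)
    · by_contra hN
      obtain ⟨s, hs1, hs2⟩ := hNNW p K hp hQ _ _ (isHk_tw (hps1 k) χ) hN
      have h1 : 2 * Real.pi * (k : ℝ) / R = s := by
        have := hs1 w
        rwa [mu, if_pos rfl] at this
      have h2 : -(2 * Real.pi * (k : ℝ) / R) = s := by
        have := hs1 w'
        rwa [mu, if_neg (Ne.symm hww)] at this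
      have h3 : s = 0 := by linarith
      have h4 : k = 0 := by
        rw [h3] at h1
        have h5 : 2 * Real.pi * (k : ℝ) = 0 := by
          rcases div_eq_zero_iff.1 h1 with h | h
          · exact h
          · exact absurd h hR0.ne'
        have h6 : (k : ℝ) = 0 := by
          rcases mul_eq_zero.1 h5 with h | h
          · exact absurd h (by positivity)
          · exact h
        exact_mod_cast h6
      apply hkχ
      rw [h4]
      congr 1
      apply DFunLike.ext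
      intro g
      obtain ⟨𝔞, ha, hg⟩ := exists_cl (Additive.toMul g)
      have h5 := hs2 𝔞 ha
      rw [tw_apply, hps2 k h4, triv_apply ha, one_mul, hg, h3] at h5
      rw [AddChar.one_apply]
      simpa using h5
    · intro v
      rw [Finset.mem_Icc] at hk
      have h1 : |(k : ℝ)| ≤ n := by
        rw [abs_le]
        constructor
        · exact_mod_cast hk.1
        · exact_mod_cast hk.2
      have h2 : |mu w (2 * Real.pi * (k : ℝ) / R) v| = 2 * Real.pi * |(k : ℝ)| / R := by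
        have h3 : |2 * Real.pi * (k : ℝ) / R| = 2 * Real.pi * |(k : ℝ)| / R := by
          rw [abs_div, abs_mul, abs_of_pos hR0, abs_of_pos (by positivity : 0 < 2 * Real.pi)]
        unfold mu
        split
        · exact h3
        · rw [abs_neg]; exact h3
      rw [h2, div_le_iff₀ hR0]
      have h3 : 2 * Real.pi ≤ 6.3 := by
        have := Real.pi_lt_d2
        linarith
      have h4 : 2 * Real.pi * |(k : ℝ)| ≤ 6.3 * (n + 1) := by
        apply mul_le_mul h3 (by linarith) (abs_nonneg _) (by norm_num)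
      have h5 : 0 ≤ 4 * C₂ + C₂ * C₁ ^ 2 := by positivity
      have h6 : 63 * ((n : ℝ) + 1) * (1 / 10) ≤ (63 + 4 * C₂ + C₂ * C₁ ^ 2) * (n + 1) * R := by
        apply mul_le_mul _ hR1 (by norm_num) (by positivity)
        apply mul_le_mul_of_nonneg_right _ hn1.le
        linarith
      linarith
  set h : ℕ := Nat.card (ClassGroup (𝓞 K)) with hh
  have hcard : Fintype.card (AddChar (Additive (ClassGroup (𝓞 K))) ℂ) = h := by
    rw [AddChar.card_eq, hh, Nat.card_eq_fintype_card]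
    exact Fintype.card_congr Additive.toMul
  -- the sum over the tuples
  set Φ : (Fin m → Ideal (𝓞 K)) → ℂ := fun f => ∑ k ∈ Finset.Icc (-(n : ℤ)) n,
    ∑ χ : AddChar (Additive (ClassGroup (𝓞 K))) ℂ,
      co k * (tw (ps k) χ (∏ j, f j) * conj (tw (ps k) χ 𝔟)) with hΦ
  have hA : ∑ f ∈ Fintype.piFinset (fun _ : Fin m => S), Φ f =
      ∑ x ∈ Finset.Icc (-(n : ℤ)) n ×ˢ (Finset.univ : Finset (AddChar (Additive (ClassGroup (𝓞 K))) ℂ)),
        co x.1 * ((∑ 𝔮 ∈ S, tw (ps x.1) x.2 𝔮) ^ m * conj (tw (ps x.1) x.2 𝔟)) := by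
    rw [hΦ, Finset.sum_comm, Finset.sum_product]
    refine Finset.sum_congr rfl fun k _ => ?_
    rw [Finset.sum_comm]
    refine Finset.sum_congr rfl fun χ _ => ?_
    rw [← Finset.mul_sum, ← Finset.sum_mul]
    congr 2
    have h1 := Finset.prod_univ_sum (fun _ : Fin m => S) (fun _ 𝔮 => tw (ps k) χ 𝔮)
    rw [Finset.prod_const, Finset.card_univ, Fintype.card_fin] at h1
    rw [h1]
    exact Finset.sum_congr rfl fun f _ => by rw [map_prod]
  have h01 : ((0 : ℤ), (1 : AddChar (Additive (ClassGroup (𝓞 K))) ℂ)) ∈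
      Finset.Icc (-(n : ℤ)) n ×ˢ (Finset.univ : Finset (AddChar (Additive (ClassGroup (𝓞 K))) ℂ)) := by
    rw [Finset.mem_product, Finset.mem_Icc]
    exact ⟨⟨by simp, by simp⟩, Finset.mem_univ _⟩
  have hmain : co 0 * ((∑ 𝔮 ∈ S, tw (ps 0) (1 : AddChar (Additive (ClassGroup (𝓞 K))) ℂ) 𝔮) ^ m *
      conj (tw (ps 0) (1 : AddChar (Additive (ClassGroup (𝓞 K))) ℂ) 𝔟)) = (S.card : ℂ) ^ m := by
    have h1 : ∀ {𝔞 : Ideal (𝓞 K)}, 𝔞 ≠ ⊥ →
        tw (ps 0) (1 : AddChar (Additive (ClassGroup (𝓞 K))) ℂ) 𝔞 = 1 := by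
      intro 𝔞 ha
      rw [tw_apply, hps2 0 rfl, triv_apply ha, AddChar.one_apply, one_mul]
    rw [Finset.sum_congr rfl fun 𝔮 h𝔮 => h1 (hS0 𝔮 h𝔮), h1 hb, hco]
    simp [ex_zero]
  have hT : ∀ x ∈ (Finset.Icc (-(n : ℤ)) n ×ˢ (Finset.univ : Finset (AddChar (Additive
      (ClassGroup (𝓞 K))) ℂ))).erase (0, 1), ‖co x.1 * ((∑ 𝔮 ∈ S, tw (ps x.1) x.2 𝔮) ^ m *
        conj (tw (ps x.1) x.2 𝔟))‖ ≤ T ^ m := by
    intro x hx
    rw [Finset.mem_erase, Finset.mem_product] at hx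
    rw [norm_mul, norm_mul, norm_pow, RCLike.norm_conj, hnorm _ _ hb, mul_one]
    calc _ ≤ 1 * T ^ m := by
          apply mul_le_mul (hco1 _ hx.2.1) _ (by positivity) (by norm_num)
          exact pow_le_pow_left₀ (norm_nonneg _) (hnt _ hx.2.1 _ hx.1) _
      _ = T ^ m := one_mul _
  have hstepA : ‖∑ f ∈ Fintype.piFinset (fun _ : Fin m => S), Φ f - (S.card : ℂ) ^ m‖ ≤
      (2 * n + 1) * h * T ^ m := by
    rw [hA, ← Finset.add_sum_erase _ _ h01, hmain, add_sub_cancel_left]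
    refine (norm_sum_le _ _).trans ((Finset.sum_le_sum hT).trans ?_)
    rw [Finset.sum_const, nsmul_eq_mul]
    apply mul_le_mul_of_nonneg_right _ (by positivity)
    have h1 : ((Finset.Icc (-(n : ℤ)) n ×ˢ (Finset.univ : Finset (AddChar (Additive
      (ClassGroup (𝓞 K))) ℂ))).erase (0, 1)).card ≤ (2 * n + 1) * h := by
      refine (Finset.card_erase_le).trans ?_
      rw [Finset.card_product, Finset.card_univ, hcard, Int.card_Icc]
      apply Nat.mul_le_mul_right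
      omega
    exact_mod_cast h1
  -- the bound for one tuple
  have hstepB : ∀ f ∈ Fintype.piFinset (fun _ : Fin m => S),
      ‖Φ f‖ ≤ h * (R ^ 2 / (4 * (n + 1) * d ^ 2)) := by
    intro f hf
    rw [Fintype.mem_piFinset] at hf
    have ha : ∏ j, f j ≠ ⊥ := Finset.prod_ne_zero_iff.2 fun j _ => hS0 _ (hf j)
    have h1 : Φ f = ∑ k ∈ Finset.Icc (-(n : ℤ)) n, (co k * (ps k (∏ j, f j) * conj (ps k 𝔟))) *
        ∑ χ : AddChar (Additive (ClassGroup (𝓞 K))) ℂ,
          χ (Additive.ofMul (cl (∏ j, f j)) - Additive.ofMul (cl 𝔟)) := by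
      rw [hΦ]
      refine Finset.sum_congr rfl fun k _ => ?_
      rw [Finset.mul_sum]
      refine Finset.sum_congr rfl fun χ _ => ?_
      rw [tw_apply, tw_apply, map_mul (starRingEnd ℂ), sub_eq_add_neg, AddChar.map_add_eq_mul,
        AddChar.map_neg_eq_conj]
      ring
    rw [h1, AddChar.sum_apply_eq_ite]
    have h2 : (Fintype.card (Additive (ClassGroup (𝓞 K))) : ℂ) = h := by
      rw [← hcard, AddChar.card_eq]
    split
    · rename_i heq
      have heq' : cl (∏ j, f j) = cl 𝔟 := Additive.ofMul.injective (sub_eq_zero.1 heq)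
      obtain ⟨x, y, hx, hy, hxy⟩ := cl_eq ha hb heq'
      have hxK : (x : K) ≠ 0 := by
        intro h0; exact hx (RingOfIntegers.coe_eq_zero_iff.1 h0)
      have hyK : (y : K) ≠ 0 := by
        intro h0; exact hy (RingOfIntegers.coe_eq_zero_iff.1 h0)
      set θ : ℝ := (la w w' ((y : K) / (x : K)) - t) / R with hθ
      have h3 : ∀ k : ℤ, ps k (∏ j, f j) * conj (ps k 𝔟) =
          ex (2 * Real.pi * k / R * la w w' ((y : K) / (x : K))) := by
        intro k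
        have e1 := congrArg (ps k) hxy
        rw [map_mul, map_mul, hps1 k x hx, hps1 k y hy, pw_mu hww hv, pw_mu hww hv] at e1
        have e2 : ps k 𝔟 * conj (ps k 𝔟) = 1 := by
          rw [Complex.mul_conj, Complex.normSq_eq_norm_sq, hNRM K _ _ (hps1 k) 𝔟 hb]
          simp
        have e3 : ex (2 * Real.pi * k / R * la w w' (x : K)) ≠ 0 := by
          intro h0
          have := ex_norm (2 * Real.pi * k / R * la w w' (x : K))
          rw [h0, norm_zero] at this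
          exact zero_ne_one this
        apply mul_left_cancel₀ e3
        rw [← mul_assoc, e1, mul_assoc, e2, mul_one, ← ex_add, la_div w w' hyK hxK]
        congr 1
        ring
      have h4 : ∑ k ∈ Finset.Icc (-(n : ℤ)) n, (co k * (ps k (∏ j, f j) * conj (ps k 𝔟))) *
          (Fintype.card (Additive (ClassGroup (𝓞 K))) : ℂ) = h * fej n θ := by
        rw [← Finset.sum_mul, h2, mul_comm, fej]
        congr 1
        refine Finset.sum_congr rfl fun k _ => ?_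
        rw [h3 k, hco]
        simp only
        rw [mul_assoc, ← ex_add]
        congr 1
        rw [ex]
        congr 3
        rw [hθ]
        field_simp
        ring
      rw [h4, norm_mul, Complex.norm_natCast]
      apply mul_le_mul_of_nonneg_left _ (Nat.cast_nonneg _)
      obtain ⟨hf1, hf2, hf3⟩ := hFEJ n θ
      have h5 : ‖fej n θ‖ = (fej n θ).re := by
        have : fej n θ = (((fej n θ).re : ℝ) : ℂ) := Complex.ext rfl (by rw [hf1, Complex.ofReal_im])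
        rw [this, Complex.norm_real, Real.norm_eq_abs, Complex.ofReal_re, abs_of_nonneg hf2]
      rw [h5]
      refine (hf3 (d / R) (by positivity) ?_).trans (le_of_eq ?_)
      · intro j
        by_contra hlt
        push Not at hlt
        apply hno
        refine ⟨f, fun i => hf i, x, ((u₀ ^ (-j) : (𝓞 K)ˣ) : 𝓞 K) * y, hx,
          mul_ne_zero (Units.ne_zero _) hy, ?_, ?_⟩
        · rw [hxy]
          congr 1
          rw [mul_comm ((u₀ ^ (-j) : (𝓞 K)ˣ) : 𝓞 K) y]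
          exact (Ideal.span_singleton_mul_right_unit (Units.isUnit _) y).symm
        · have e1 : la w w' (((((u₀ ^ (-j) : (𝓞 K)ˣ) : 𝓞 K) * y : 𝓞 K) : K) / (x : K)) =
              la w w' ((y : K) / (x : K)) - j * R := by
            have hu : ((((u₀ ^ (-j) : (𝓞 K)ˣ) : 𝓞 K)) : K) ≠ 0 := by
              intro h0
              exact (Units.ne_zero (u₀ ^ (-j))) (RingOfIntegers.coe_eq_zero_iff.1 h0)
            have e0 : ((((u₀ ^ (-j) : (𝓞 K)ˣ) : 𝓞 K) * y : 𝓞 K) : K) =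
                (((u₀ ^ (-j) : (𝓞 K)ˣ) : 𝓞 K) : K) * (y : K) :=
              map_mul (algebraMap (𝓞 K) K) _ _
            rw [e0, mul_div_assoc, la_mul w w' hu (div_ne_zero hyK hxK), la_zpow, hu₀]
            push_cast
            ring
          rw [e1]
          have e2 : la w w' ((y : K) / (x : K)) - j * R - t = (θ - j) * R := by
            rw [hθ]
            field_simp
            ring
          rw [e2, abs_mul, abs_of_pos hR0]
          rw [lt_div_iff₀ hR0] at hlt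
          exact hlt.le
      · field_simp
    · simp only [mul_zero, Finset.sum_const_zero, norm_zero]
      positivity
  have hB : ‖∑ f ∈ Fintype.piFinset (fun _ : Fin m => S), Φ f‖ ≤
      (S.card : ℝ) ^ m * (h * (R ^ 2 / (4 * (n + 1) * d ^ 2))) := by
    refine (norm_sum_le _ _).trans ((Finset.sum_le_sum hstepB).trans (le_of_eq ?_))
    rw [Finset.sum_const, Fintype.card_piFinset_const, nsmul_eq_mul]
    push_cast
    ring
  -- the end
  have hN : 0 < (S.card : ℝ) ^ m := by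
    have : 0 < S.card := Finset.card_pos.2 hSne
    positivity
  have hhb : (h : ℝ) ≤ C₂ * (p : ℝ) ^ 2 := hH p K hp hQ
  have hfin : (S.card : ℝ) ^ m ≤ (2 * n + 1) * h * T ^ m +
      (S.card : ℝ) ^ m * (h * (R ^ 2 / (4 * (n + 1) * d ^ 2))) := by
    have h1 : ‖(S.card : ℂ) ^ m‖ ≤ ‖∑ f ∈ Fintype.piFinset (fun _ : Fin m => S), Φ f -
        (S.card : ℂ) ^ m‖ + ‖∑ f ∈ Fintype.piFinset (fun _ : Fin m => S), Φ f‖ := by
      have h2 : (S.card : ℂ) ^ m = ∑ f ∈ Fintype.piFinset (fun _ : Fin m => S), Φ f -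
        (∑ f ∈ Fintype.piFinset (fun _ : Fin m => S), Φ f - (S.card : ℂ) ^ m) := by ring
      calc ‖(S.card : ℂ) ^ m‖ = ‖∑ f ∈ Fintype.piFinset (fun _ : Fin m => S), Φ f -
          (∑ f ∈ Fintype.piFinset (fun _ : Fin m => S), Φ f - (S.card : ℂ) ^ m)‖ := by rw [← h2]
        _ ≤ _ := (norm_sub_le _ _).trans (le_of_eq (add_comm _ _))
    rw [norm_pow, Complex.norm_natCast] at h1
    exact h1.trans (add_le_add hstepA hB)
  have h1 : (2 * n + 1) * (h : ℝ) * T ^ m ≤ (S.card : ℝ) ^ m / 2 := by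
    have e1 : (2 * (n : ℝ) + 1) * h * T ^ m ≤ 2 * (n + 1) * (C₂ * (p : ℝ) ^ 2) * T ^ m := by
      apply mul_le_mul_of_nonneg_right _ (by positivity)
      apply mul_le_mul (by linarith) hhb (by positivity) (by positivity)
    have e2 : 4 * C₂ * ((n + 1) * (p : ℝ) ^ 2 * T ^ m) ≤
        (63 + 4 * C₂ + C₂ * C₁ ^ 2) * ((n + 1) * (p : ℝ) ^ 2 * T ^ m) := by
      apply mul_le_mul_of_nonneg_right _ (by positivity)
      have : 0 ≤ C₂ * C₁ ^ 2 := by positivity
      linarith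
    nlinarith [hc1]
  have h2 : (h : ℝ) * (R ^ 2 / (4 * (n + 1) * d ^ 2)) ≤ 1 / 4 := by
    have e1 : (h : ℝ) * R ^ 2 ≤ C₂ * C₁ ^ 2 * (p : ℝ) ^ 10 := by
      calc (h : ℝ) * R ^ 2 ≤ (C₂ * (p : ℝ) ^ 2) * (C₁ * (p : ℝ) ^ 4) ^ 2 := by
            apply mul_le_mul hhb (pow_le_pow_left₀ hR0.le hR2 2) (by positivity) (by positivity)
        _ = C₂ * C₁ ^ 2 * (p : ℝ) ^ 10 := by ring
    have e2 : C₂ * C₁ ^ 2 * (p : ℝ) ^ 10 ≤ (63 + 4 * C₂ + C₂ * C₁ ^ 2) * (p : ℝ) ^ 10 := by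
      apply mul_le_mul_of_nonneg_right _ (by positivity)
      linarith
    have e3 : (h : ℝ) * R ^ 2 ≤ (n + 1) * d ^ 2 := (e1.trans e2).trans hc2
    rw [← mul_div_assoc, div_le_iff₀ (by positivity)]
    linarith
  have h3 : (S.card : ℝ) ^ m * (h * (R ^ 2 / (4 * (n + 1) * d ^ 2))) ≤ (S.card : ℝ) ^ m * (1 / 4) :=
    mul_le_mul_of_nonneg_left h2 hN.le
  linarith

end Pool.Agent.J4H60.HG
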