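import Pool.Agent.J4H78.HG.Stm3

/-! Project HG3 (helper78), piece EQ1: equidistribution from the upper bound and the class counts. -/

set_option autoImplicit false

open NumberField

namespace Pool.Agent.J4H60.HG

open Pool.Agent.J4H78.GP (QD S_HB)
open Pool.Agent.J4H78.HG

theorem Bdd.mono {K : Type} [Field K] [NumberField K] {S : Finset (Ideal (𝓞 K))} {M M' T : ℝ}
    (h : Bdd S M T) (hM : M' ≤ M) : Bdd S M' T :=
  fun μ ψ h1 h2 h3 => h μ ψ h1 h2 fun v => (h3 v).trans hM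

/-- the real inequalities -/
theorem real_eq {h R Nm Tm p d l c c' k ε : ℝ} (hR : 0 < R) (hp : 2 ≤ p)
    (hd : 0 < d) (hNm : 0 < Nm) (hε0 : 0 ≤ ε) (hεR : ε * R ≤ d / (32 * p)) (hdR : d ≤ R)
    (hdl : d ≤ l) (hh : 0 ≤ h) (hc : 0 ≤ c)
    (hTm : R * (h * Tm) ≤ Nm * (d / (16 * p))) (hTm0 : 0 ≤ Tm)
    (hk : Nm - h * Tm ≤ h * k) (hkc : k ≤ c + c')
    (hU : h * R * c * (1 - ε) ≤ Nm * (l + 3 * d / (16 * p)))
    (hU' : h * R * c' * (1 - ε) ≤ Nm * (R - l + 3 * d / (16 * p))) :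
    |h * R * c - Nm * l| ≤ Nm * l / p := by
  have hp0 : 0 < p := by linarith
  have hl : 0 < l := by linarith
  have hε1 : ε ≤ 1 / (32 * p) := by
    have h1 : ε * R ≤ 1 / (32 * p) * R := by
      refine hεR.trans ?_
      rw [div_mul_eq_mul_div, one_mul]
      exact div_le_div_of_nonneg_right hdR (by positivity)
    exact le_of_mul_le_mul_right h1 hR
  have hp32 : 1 / (32 * p) ≤ 1 / 64 := by
    apply one_div_le_one_div_of_le (by norm_num)
    linarith
  set x : ℝ := 1 / p with hx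
  have hx0 : 0 < x := by positivity
  have hx1 : x ≤ 1 / 2 := by
    rw [hx]
    exact one_div_le_one_div_of_le (by norm_num) hp
  have e32 : 1 / (32 * p) = x / 32 := by rw [hx]; field_simp
  have ed32 : d / (32 * p) = d * x / 32 := by rw [hx]; field_simp
  have ed16 : d / (16 * p) = d * x / 16 := by rw [hx]; field_simp
  have e3d : 3 * d / (16 * p) = 3 * d * x / 16 := by rw [hx]; field_simp
  rw [e32] at hε1
  rw [ed32] at hεR
  rw [ed16] at hTm
  rw [e3d] at hU hU'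
  have eNl : Nm * l / p = Nm * l * x := by rw [hx]; field_simp
  rw [eNl]
  have hdx : d * x ≤ l * x := mul_le_mul_of_nonneg_right hdl hx0.le
  have hNl : 0 < Nm * l := mul_pos hNm hl
  have hhRc : 0 ≤ h * R * c := by positivity
  rw [abs_le]
  constructor
  · -- lower bound
    have h1 : R * (Nm - h * Tm) ≤ R * (h * (c + c')) :=
      mul_le_mul_of_nonneg_left (hk.trans (mul_le_mul_of_nonneg_left hkc hh)) hR.le
    have h2 : (1 - ε) * (R * (Nm - h * Tm)) ≤ (1 - ε) * (R * (h * (c + c'))) :=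
      mul_le_mul_of_nonneg_left h1 (by linarith)
    have h3 : 0 ≤ R * (h * Tm) := by positivity
    have h4 : ε * (R * Nm) ≤ Nm * (d * x / 32) := by
      calc ε * (R * Nm) = Nm * (ε * R) := by ring
        _ ≤ _ := mul_le_mul_of_nonneg_left hεR hNm.le
    have h5 : 0 ≤ ε * (R * (h * Tm)) := mul_nonneg hε0 h3
    have h6 : h * R * c * (1 - ε) ≤ h * R * c := by
      have : 0 ≤ h * R * c * ε := mul_nonneg hhRc hε0
      linarith
    have h7 : Nm * (d * x) ≤ Nm * l * x := by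
      calc Nm * (d * x) ≤ Nm * (l * x) := mul_le_mul_of_nonneg_left hdx hNm.le
        _ = Nm * l * x := by ring
    have h8 : 0 < Nm * l * x := mul_pos hNl hx0
    nlinarith
  · -- upper bound
    have h7 : Nm * (d * x) ≤ Nm * l * x := by
      calc Nm * (d * x) ≤ Nm * (l * x) := mul_le_mul_of_nonneg_left hdx hNm.le
        _ = Nm * l * x := by ring
    have h1 : h * R * c * (1 - x / 32) ≤ Nm * l * (1 + 3 * x / 16) := by
      have h2 : h * R * c * (1 - x / 32) ≤ h * R * c * (1 - ε) :=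
        mul_le_mul_of_nonneg_left (by linarith) hhRc
      have h3 : Nm * (l + 3 * d * x / 16) ≤ Nm * l * (1 + 3 * x / 16) := by
        have : Nm * (l + 3 * d * x / 16) = Nm * l + 3 / 16 * (Nm * (d * x)) := by ring
        rw [this]
        nlinarith
      exact h2.trans (hU.trans h3)
    have h2 : Nm * l * (1 + 3 * x / 16) ≤ Nm * l * ((1 + x) * (1 - x / 32)) := by
      apply mul_le_mul_of_nonneg_left _ hNl.le
      nlinarith
    have h3 : h * R * c * (1 - x / 32) ≤ (Nm * l * (1 + x)) * (1 - x / 32) := by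
      refine (h1.trans h2).trans (le_of_eq ?_)
      ring
    have h4 : h * R * c ≤ Nm * l * (1 + x) := le_of_mul_le_mul_right h3 (by linarith)
    linarith

theorem t_EQ1 : S_UPB → S_CLS → S_CMP → S_HB → S_UNI → S_EQ1 := by
  intro hUPB hCLS hCMP hHB hUNI
  obtain ⟨C₀, hC₀, hU⟩ := hUPB
  obtain ⟨C₁, hC₁, hUN⟩ := hUNI
  obtain ⟨C₂, hC₂, hH⟩ := hHB
  refine ⟨C₀ + 2048 * C₁ ^ 3 + 32 * C₁ * C₂, by positivity, ?_⟩
  intro p K _ _ hp hQ w w' hww R hReg S hS0 hSne n m T d hT0 hd hd1 hB hc1 hc2 𝔟 hb t l hdl hlR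
  obtain ⟨hR1, ⟨u₀, hu₀⟩, hun⟩ := id hReg
  have hR0 : 0 < R := by linarith
  have hp2 : (2 : ℝ) ≤ p := by exact_mod_cast hp.two_le
  have hp0 : (0 : ℝ) < p := by linarith
  have hn1 : (0 : ℝ) < (n : ℝ) + 1 := by positivity
  -- `R` is at most `C₁ p ^ 4`
  have hR2 : R ≤ C₁ * (p : ℝ) ^ 4 := by
    obtain ⟨-, R', hR'1, hR'2, ⟨u', hu'⟩, -⟩ := hUN p K hp hQ w w' hww
    obtain ⟨k, hk⟩ := hun u'
    rw [hu'] at hk
    have hk1 : 1 ≤ (k : ℝ) := by
      have h0 : 0 < (k : ℝ) * R := by rw [← hk]; linarith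
      have h1 : 0 < (k : ℝ) := by
        rcases lt_or_ge 0 (k : ℝ) with h | h
        · exact h
        · exact absurd h0 (not_lt.2 (mul_nonpos_of_nonpos_of_nonneg h hR0.le))
      have h2 : 0 < k := by exact_mod_cast h1
      exact_mod_cast h2
    have : R ≤ k * R := by nlinarith
    linarith
  set h : ℕ := Nat.card (ClassGroup (𝓞 K)) with hh
  have hhb : (h : ℝ) ≤ C₂ * (p : ℝ) ^ 2 := hH p K hp hQ
  have hN : 0 < (S.card : ℝ) := by
    have := Finset.card_pos.2 hSne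
    exact_mod_cast this
  have hNm : 0 < (S.card : ℝ) ^ m := pow_pos hN m
  have hTm : 0 ≤ T ^ m := pow_nonneg hT0 m
  set r : ℝ := d / (16 * p * R) with hr
  have hr0 : 0 < r := by positivity
  set ε : ℝ := 1 / (4 * (n + 1) * r ^ 2) with hε
  have hε0 : 0 ≤ ε := by positivity
  have hrR : 2 * r * R = d / (8 * p) := by
    rw [hr]
    field_simp
    ring
  have hεR : ε * R ≤ d / (32 * p) := by
    have h1 : ε * R = 64 * (p : ℝ) ^ 2 * R ^ 3 / ((n + 1) * d ^ 2) := by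
      rw [hε, hr]
      field_simp
      ring
    have h2 : R ^ 3 ≤ (C₁ * (p : ℝ) ^ 4) ^ 3 := pow_le_pow_left₀ hR0.le hR2 3
    have h3 : 2048 * (p : ℝ) ^ 3 * R ^ 3 ≤ (n + 1) * d ^ 3 := by
      calc 2048 * (p : ℝ) ^ 3 * R ^ 3 ≤ 2048 * (p : ℝ) ^ 3 * (C₁ * (p : ℝ) ^ 4) ^ 3 :=
            mul_le_mul_of_nonneg_left h2 (by positivity)
        _ = 2048 * C₁ ^ 3 * (p : ℝ) ^ 15 := by ring
        _ ≤ (C₀ + 2048 * C₁ ^ 3 + 32 * C₁ * C₂) * (p : ℝ) ^ 15 := by
            apply mul_le_mul_of_nonneg_right _ (by positivity)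
            have : 0 ≤ 32 * C₁ * C₂ := by positivity
            linarith
        _ ≤ _ := hc1
    rw [h1, div_le_div_iff₀ (by positivity) (by positivity)]
    calc 64 * (p : ℝ) ^ 2 * R ^ 3 * (32 * p) = 2048 * (p : ℝ) ^ 3 * R ^ 3 := by ring
      _ ≤ (n + 1) * d ^ 3 := h3
      _ = d * ((n + 1) * d ^ 2) := by ring
  have hE : R * ((h : ℝ) * (2 * n + 1) * T ^ m) ≤ (S.card : ℝ) ^ m * (d / (16 * p)) := by
    rw [← mul_div_assoc, le_div_iff₀ (by positivity)]
    have h1 : R * ((h : ℝ) * (2 * n + 1)) ≤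
        (C₁ * (p : ℝ) ^ 4) * ((C₂ * (p : ℝ) ^ 2) * (2 * (n + 1))) := by
      apply mul_le_mul hR2 _ (by positivity) (by positivity)
      apply mul_le_mul hhb (by linarith) (by positivity) (by positivity)
    calc R * ((h : ℝ) * (2 * n + 1) * T ^ m) * (16 * p)
        = (R * ((h : ℝ) * (2 * n + 1))) * (T ^ m * (16 * p)) := by ring
      _ ≤ ((C₁ * (p : ℝ) ^ 4) * ((C₂ * (p : ℝ) ^ 2) * (2 * (n + 1)))) * (T ^ m * (16 * p)) :=
          mul_le_mul_of_nonneg_right h1 (by positivity)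
      _ = 32 * C₁ * C₂ * ((n + 1) * (p : ℝ) ^ 7 * T ^ m) := by ring
      _ ≤ (C₀ + 2048 * C₁ ^ 3 + 32 * C₁ * C₂) * ((n + 1) * (p : ℝ) ^ 7 * T ^ m) := by
          apply mul_le_mul_of_nonneg_right _ (by positivity)
          have : 0 ≤ 2048 * C₁ ^ 3 := by positivity
          linarith
      _ = (C₀ + 2048 * C₁ ^ 3 + 32 * C₁ * C₂) * (n + 1) * (p : ℝ) ^ 7 * T ^ m := by ring
      _ ≤ d * (S.card : ℝ) ^ m := hc2
      _ = (S.card : ℝ) ^ m * d := mul_comm _ _
  have hE1 : R * ((h : ℝ) * T ^ m) ≤ (S.card : ℝ) ^ m * (d / (16 * p)) := by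
    refine le_trans ?_ hE
    apply mul_le_mul_of_nonneg_left _ hR0.le
    have h1 : (h : ℝ) * 1 ≤ (h : ℝ) * (2 * n + 1) :=
      mul_le_mul_of_nonneg_left (by linarith [Nat.cast_nonneg (α := ℝ) n]) (Nat.cast_nonneg _)
    calc (h : ℝ) * T ^ m = (h : ℝ) * 1 * T ^ m := by ring
      _ ≤ _ := mul_le_mul_of_nonneg_right h1 hTm
  have hB0 : Bdd S 0 T := Bdd.mono hB (by positivity)
  have hB1 : Bdd S (C₀ * (n + 1)) T := Bdd.mono hB (by
    apply mul_le_mul_of_nonneg_right _ hn1.le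
    have : 0 ≤ 2048 * C₁ ^ 3 + 32 * C₁ * C₂ := by positivity
    linarith)
  have hcls := hCLS p K hp hQ S hS0 m T hT0 hB0 𝔟 hb
  rw [← hh, abs_le] at hcls
  have hε1 : ε ≤ 1 := by
    have h1 : ε * R ≤ 1 * R := by
      refine hεR.trans ?_
      rw [one_mul]
      have : d / (32 * p) ≤ d := div_le_self hd.le (by linarith)
      linarith
    exact le_of_mul_le_mul_right h1 hR0
  have key : ∀ t' l' : ℝ, 0 ≤ l' → l' ≤ R →
      (h : ℝ) * R * cnt w w' (S : Set (Ideal (𝓞 K))) m 𝔟 t' l' * (1 - ε) ≤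
        (S.card : ℝ) ^ m * (l' + 3 * d / (16 * p)) := by
    intro t' l' hl0 hl1
    have e1 : 3 * d / (16 * p) = d / (8 * p) + d / (16 * p) := by
      field_simp
      ring
    rcases le_or_gt (l' + 2 * r * R) R with hcase | hcase
    · have h1 := hU p K hp hQ w w' hww R hReg S hS0 n m T r t' l' hT0 hr0 hl0 hcase hB1 𝔟 hb
      rw [← hh, ← hε] at h1
      have h2 := mul_le_mul_of_nonneg_left h1 hR0.le
      have h3 : R * ((S.card : ℝ) ^ m * (l' / R + 2 * r) + (h : ℝ) * (2 * n + 1) * T ^ m) =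
          (S.card : ℝ) ^ m * (l' + 2 * r * R) + R * ((h : ℝ) * (2 * n + 1) * T ^ m) := by
        field_simp
      rw [h3, hrR] at h2
      calc _ = R * ((h : ℝ) * (1 - ε) * cnt w w' (S : Set (Ideal (𝓞 K))) m 𝔟 t' l') := by ring
        _ ≤ _ := h2
        _ ≤ (S.card : ℝ) ^ m * (l' + d / (8 * p)) + (S.card : ℝ) ^ m * (d / (16 * p)) :=
            add_le_add le_rfl hE
        _ = _ := by rw [e1]; ring
    · have h1 : (cnt w w' (S : Set (Ideal (𝓞 K))) m 𝔟 t' l' : ℝ) ≤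
          cls (S : Set (Ideal (𝓞 K))) m 𝔟 := by
        exact_mod_cast (hCMP K w w' R hReg S m 𝔟 t' l' hl0 hl1).2
      have h2 : (h : ℝ) * cnt w w' (S : Set (Ideal (𝓞 K))) m 𝔟 t' l' ≤
          (S.card : ℝ) ^ m + h * T ^ m :=
        (mul_le_mul_of_nonneg_left h1 (Nat.cast_nonneg _)).trans (by linarith [hcls.2])
      have h3 : 0 ≤ (h : ℝ) * R * cnt w w' (S : Set (Ideal (𝓞 K))) m 𝔟 t' l' := by positivity
      have h4 : R ≤ l' + d / (8 * p) := by rw [← hrR]; exact hcase.le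
      calc (h : ℝ) * R * cnt w w' (S : Set (Ideal (𝓞 K))) m 𝔟 t' l' * (1 - ε)
          ≤ (h : ℝ) * R * cnt w w' (S : Set (Ideal (𝓞 K))) m 𝔟 t' l' * 1 :=
            mul_le_mul_of_nonneg_left (by linarith) h3
        _ = R * ((h : ℝ) * cnt w w' (S : Set (Ideal (𝓞 K))) m 𝔟 t' l') := by ring
        _ ≤ R * ((S.card : ℝ) ^ m + h * T ^ m) := mul_le_mul_of_nonneg_left h2 hR0.le
        _ = (S.card : ℝ) ^ m * R + R * (h * T ^ m) := by ring
        _ ≤ (S.card : ℝ) ^ m * (l' + d / (8 * p)) + (S.card : ℝ) ^ m * (d / (16 * p)) :=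
            add_le_add (mul_le_mul_of_nonneg_left h4 hNm.le) hE1
        _ = _ := by rw [e1]; ring
  have hl0 : 0 ≤ l := by linarith
  refine real_eq (k := cls (S : Set (Ideal (𝓞 K))) m 𝔟)
    (c' := cnt w w' (S : Set (Ideal (𝓞 K))) m 𝔟 (t + l) (R - l)) (ε := ε) (Tm := T ^ m)
    hR0 hp2 hd hNm hε0 hεR (by linarith) hdl (Nat.cast_nonneg _) (Nat.cast_nonneg _)
    hE1 hTm (by linarith [hcls.1]) ?_ (key t l hl0 hlR) (key (t + l) (R - l) (by linarith) (by linarith))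
  exact_mod_cast (hCMP K w w' R hReg S m 𝔟 t l hl0 hlR).1

end Pool.Agent.J4H60.HG
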