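import Pool.Agent.J4H78.HG.Stm
import Pool.Agent.J4H78.GP.Pair
import Pool.Agent.Y773.HK.Geo

/-!
# Project HG (helper78): the part PAH
-/

set_option autoImplicit false

open NumberField Complex Filter Topology MeasureTheory

namespace Pool.Agent.J4H60.HG

open Pool.Agent.J4H78.HG
open Pool.Agent.J4H78.GP (QD BQ eta cj res gg IsCf S_FLD S_MULT S_REC S_EX cc_res cc_cj isCf_congr
  tsum_fib fib_finite cj_apply res_apply)
open Pool.Agent.Y773 (VM cc)

lemma pw_conj {K : Type} [Field K] [NumberField K] (μ : InfinitePlace K → ℝ) (x : K) :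
    (starRingEnd ℂ) (pw μ x) = pw (fun w => -μ w) x := by
  unfold pw
  rw [map_prod]
  refine Finset.prod_congr rfl fun w _ => ?_
  rw [← Complex.exp_conj, map_mul, Complex.conj_ofReal, Complex.conj_I]
  congr 1
  push_cast
  ring

lemma isHk_cj {K : Type} [Field K] [NumberField K] {μ : InfinitePlace K → ℝ} {η : Ideal (𝓞 K) →*₀ ℂ}
    (h : IsHk K μ η) : IsHk K (fun w => -μ w) (cj η) := by
  intro x hx
  rw [cj_apply, h x hx, pw_conj]

lemma notNorm2_cj {K : Type} [Field K] [NumberField K] {η : Ideal (𝓞 K) →*₀ ℂ}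
    (h : NotNorm2 η) : NotNorm2 (cj η) := by
  intro t
  obtain ⟨𝔞, h0, h1⟩ := h (-t)
  refine ⟨𝔞, h0, fun h2 => h1 ?_⟩
  rw [cj_apply, ← map_pow] at h2
  have h3 := congrArg (starRingEnd ℂ) h2
  rw [Complex.conj_conj, ← Complex.exp_conj, map_mul, Complex.conj_ofReal, Complex.conj_I] at h3
  rw [h3]
  congr 1
  push_cast
  ring

/-- only finitely many ideals have a nonzero weight -/
lemma sum_ideal_V (hV : S_VPR) {L : Type} [Field L] [NumberField L] (η : Ideal (𝓞 L) → ℂ) {X : ℝ}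
    (hX : 0 < X) :
    Summable fun 𝔞 : Ideal (𝓞 L) => η 𝔞 * ((V ((Ideal.absNorm 𝔞 : ℝ) / X) : ℝ) : ℂ) := by
  obtain ⟨N, hN⟩ := exists_nat_gt (Real.exp 4 * X)
  refine summable_of_finite_support ((Ideal.finite_setOfPred_absNorm_le (S := 𝓞 L) N).subset
    fun 𝔞 h => ?_)
  by_contra h1
  apply h
  have h2 : N < Ideal.absNorm 𝔞 := not_le.mp h1
  have h3 : (N : ℝ) < (Ideal.absNorm 𝔞 : ℝ) := by exact_mod_cast h2
  have h4 : Real.exp 4 ≤ (Ideal.absNorm 𝔞 : ℝ) / X := by
    rw [le_div_iff₀ hX]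
    linarith
  change η 𝔞 * ((V ((Ideal.absNorm 𝔞 : ℝ) / X) : ℝ) : ℂ) = 0
  rw [hV.2.2.2.1 _ h4, Complex.ofReal_zero, mul_zero]

theorem t_PAH (hFLD : S_FLD) (hTYP : S_TYP) (hNTL : S_NTL) (hMULT : S_MULT) (hREC : S_REC)
    (hREH : S_REH) (hEX : S_EX) (hV : S_VPR) : S_PAH := by
  obtain ⟨C, hC, hR⟩ := hREH
  refine ⟨C * 8 * 256 ^ 40, by positivity, ?_⟩
  intro p p' K K' _ _ _ _ hp hp' hne hK hK' μ μ' ψ ψ' hψ hψ' hnt M hμ hμ' a ha X hX
  obtain ⟨L, _, _, _, _, hBQ, hTR, hdisc⟩ := hFLD p p' K K' hp hp' hne hK hK'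
  have hψc := isHk_cj hψ'
  have htyp := hTYP p p' K K' L hBQ μ (fun w => -μ' w) ψ (cj ψ') hψ hψc
  have hnt' : NotNorm (eta (L := L) ψ (cj ψ')) :=
    hNTL p p' K K' L hBQ μ ψ (cj ψ') hψ (notNorm2_cj hnt)
  set η := eta (L := L) ψ (cj ψ') with hηdef
  have hM1 : 1 ≤ 2 * p * p' := by
    have := hp.pos
    have := hp'.pos
    exact Nat.succ_le_of_lt (by positivity)
  have hM0 : 0 ≤ M := by
    obtain ⟨w⟩ : Nonempty (InfinitePlace K) := inferInstance
    exact (abs_nonneg _).trans (hμ w)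
  have hb := hREC L (res (2 * p * p') η)
  have hb' : IsCf (fun d => gg p ψ d * (starRingEnd ℂ) (gg p' ψ' d))
      (fun n => ∑ᶠ 𝔞 ∈ {𝔞 : Ideal (𝓞 L) | Ideal.absNorm 𝔞 = n}, res (2 * p * p') η 𝔞) := by
    refine isCf_congr (fun d hd => ?_) hb
    obtain ⟨q, r, hq, hr, rfl⟩ := hd
    have hq' : q.Prime := hq.nat_prime
    rw [cc_res]
    by_cases hdv : q ∣ 2 * p * p'
    · rw [if_neg]
      · have h1 : ¬ (q ^ r).Coprime (2 * p) ∨ ¬ (q ^ r).Coprime (2 * p') := by
          rcases (hq'.dvd_mul.mp hdv) with h2 | h2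
          · left
            rw [Nat.coprime_pow_left_iff hr, hq'.coprime_iff_not_dvd]
            exact fun h3 => h3 h2
          · right
            rw [Nat.coprime_pow_left_iff hr, hq'.coprime_iff_not_dvd]
            exact fun h3 => h3 (dvd_mul_of_dvd_right h2 2)
        rcases h1 with h2 | h2
        · simp only [gg]
          rw [if_neg h2, zero_mul]
        · simp only [gg]
          rw [if_neg h2, map_zero, mul_zero]
      · rw [Nat.coprime_pow_left_iff hr, hq'.coprime_iff_not_dvd]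
        exact fun h3 => h3 hdv
    · rw [if_pos]
      · have h1 : (q ^ r).Coprime (2 * p) := by
          rw [Nat.coprime_pow_left_iff hr, hq'.coprime_iff_not_dvd]
          exact fun h3 => hdv (dvd_mul_of_dvd_left h3 p')
        have h2 : (q ^ r).Coprime (2 * p') := by
          rw [Nat.coprime_pow_left_iff hr, hq'.coprime_iff_not_dvd]
          intro h3
          apply hdv
          rcases (hq'.dvd_mul.mp h3) with h4 | h4
          · exact dvd_mul_of_dvd_left (dvd_mul_of_dvd_left h4 p) p'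
          · exact dvd_mul_of_dvd_right h4 _
        simp only [gg]
        rw [if_pos h1, if_pos h2, ← cc_cj]
        exact hMULT p p' K K' L hBQ ψ (cj ψ') q r hq' hr hdv
      · rw [Nat.coprime_pow_left_iff hr, hq'.coprime_iff_not_dvd]
        exact hdv
  have hab : a = (fun n => ∑ᶠ 𝔞 ∈ {𝔞 : Ideal (𝓞 L) | Ideal.absNorm 𝔞 = n}, res (2 * p * p') η 𝔞) :=
    (hEX _).unique ha hb'
  have hsum := sum_ideal_V hV (fun 𝔞 => res (2 * p * p') η 𝔞) hX
  have hfib := tsum_fib (res (2 * p * p') η) (fun n => ((V ((n : ℝ) / X) : ℝ) : ℂ)) hsum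
  rw [hab]
  rw [hfib.tsum_eq]
  have hcard : (2 * p * p').primeFactors.card ≤ 3 := by
    rw [Nat.primeFactors_mul (mul_ne_zero two_ne_zero hp.ne_zero) hp'.ne_zero,
      Nat.primeFactors_mul two_ne_zero hp.ne_zero, Nat.Prime.primeFactors Nat.prime_two,
      hp.primeFactors, hp'.primeFactors]
    refine (Finset.card_union_le _ _).trans ?_
    have := Finset.card_union_le {2} {p}
    simp only [Finset.card_singleton] at this ⊢
    omega
  refine (hR L hBQ.deg _ η htyp hnt' (2 * p * p') hM1 hcard X hX).trans ?_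
  have h1 : ∑ w : InfinitePlace L, |μ (w.comap (algebraMap K L)) + -μ' (w.comap (algebraMap K' L))| ≤
      8 * M := by
    have h2 : ∀ w : InfinitePlace L,
        |μ (w.comap (algebraMap K L)) + -μ' (w.comap (algebraMap K' L))| ≤ 2 * M := by
      intro w
      refine (abs_add_le _ _).trans ?_
      rw [abs_neg]
      have h3 := hμ (w.comap (algebraMap K L))
      have h4 := hμ' (w.comap (algebraMap K' L))
      linarith
    refine (Finset.sum_le_sum fun w _ => h2 w).trans (le_of_eq ?_)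
    rw [Finset.sum_const, Finset.card_univ, Pool.Agent.Y773.card_place, hBQ.deg]
    simp only [nsmul_eq_mul]
    push_cast
    ring
  have h2 : |(discr L : ℝ)| ^ 40 ≤ 256 ^ 40 * ((p : ℝ) * p') ^ 80 := by
    calc |(discr L : ℝ)| ^ 40 ≤ (256 * (p : ℝ) ^ 2 * (p' : ℝ) ^ 2) ^ 40 :=
          pow_le_pow_left₀ (abs_nonneg _) hdisc 40
      _ = 256 ^ 40 * ((p : ℝ) * p') ^ 80 := by ring
  have h3 : 0 ≤ X ^ (3 / 4 : ℝ) := Real.rpow_nonneg hX.le _
  have h4 : (1 : ℝ) + ∑ w : InfinitePlace L,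
      |μ (w.comap (algebraMap K L)) + -μ' (w.comap (algebraMap K' L))| ≤ 8 * (1 + M) := by
    linarith
  have h5 : 0 ≤ (1 : ℝ) + ∑ w : InfinitePlace L,
      |μ (w.comap (algebraMap K L)) + -μ' (w.comap (algebraMap K' L))| := by positivity
  have h6 : ((1 : ℝ) + ∑ w : InfinitePlace L,
      |μ (w.comap (algebraMap K L)) + -μ' (w.comap (algebraMap K' L))|) * |(discr L : ℝ)| ^ 40 ≤
      (8 * (1 + M)) * (256 ^ 40 * ((p : ℝ) * p') ^ 80) :=
    mul_le_mul h4 h2 (by positivity) (by positivity)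
  calc C * (1 + ∑ w : InfinitePlace L,
        |μ (w.comap (algebraMap K L)) + -μ' (w.comap (algebraMap K' L))|) * |(discr L : ℝ)| ^ 40 *
        X ^ (3 / 4 : ℝ)
      = C * ((1 + ∑ w : InfinitePlace L,
        |μ (w.comap (algebraMap K L)) + -μ' (w.comap (algebraMap K' L))|) * |(discr L : ℝ)| ^ 40) *
        X ^ (3 / 4 : ℝ) := by ring
    _ ≤ C * ((8 * (1 + M)) * (256 ^ 40 * ((p : ℝ) * p') ^ 80)) * X ^ (3 / 4 : ℝ) := by gcongr
    _ = C * 8 * 256 ^ 40 * (1 + M) * ((p : ℝ) * p') ^ 80 * X ^ (3 / 4 : ℝ) := by ring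

end Pool.Agent.J4H60.HG
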